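import Pool.Agent.V8H54.CN.Main
import Pool.Agent.Results.MP_bb0df9_an.CnedIffRemovable

/-!
# Closed sets which are not CNED contain totally disconnected compact sets which are not CNED

The theorem `result` answers question Q1 of the problem in the positive, for every `n ≥ 2`; the
totally disconnected subset can even be taken compact.

Idea. If `E` has positive measure, it contains a compact totally disconnected set of positive
measure, and CNED closed sets are null sets. If `E` is a null set which is not CNED then, by the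
starting result `CnedIffRemovable` of the problem `MP_bb0df9_an`, there is a continuous function `u`
in `W^{1,n}(ℝⁿ \ E)` which is not in `W^{1,n}(ℝⁿ)`. Let `ψ` be the primitive of the indicator
function of a closed set `C` of the line whose complement is dense and very small. Then `ψ ∘ u` is
locally constant off `u⁻¹(C)`, so that it is in the class `W^{1,n}` off `E ∩ u⁻¹(C)`, and if the
complement of `C` is small enough it is not in `W^{1,n}(ℝⁿ)`. On a connected subset of
`E ∩ u⁻¹(C)` the function `u` is constant. Repeating this `n` times, each time after adding one of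
the coordinate functions (cut off at a large distance), one arrives at a set on whose connected
subsets all coordinates are constant.
-/

set_option autoImplicit false

open MeasureTheory Set Filter Topology Metric
open scoped ENNReal ContDiff

namespace Pool.Agent.Results.MP_d4663a_an.TotDiscNonCned

/-- Euclidean `n`-space. -/
abbrev Eucl (n : ℕ) := EuclideanSpace ℝ (Fin n)

/-- The path `γ : [0, 1] → ℝⁿ` is rectifiable: it has finite length. -/
def IsRectifiable {n : ℕ} (γ : ℝ → Eucl n) : Prop := eVariationOn γ (Icc 0 1) ≠ ⊤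

/-- The line integral `∫_γ ρ ds` over a rectifiable path `γ : [0, 1] → ℝⁿ`: the integral of
`ρ ∘ γ_s` over `[0, length of γ]`, where `γ_s` is the parametrization of `γ` by arc length. -/
noncomputable def lineIntegral {n : ℕ} (ρ : Eucl n → ℝ≥0∞) (γ : ℝ → Eucl n) : ℝ≥0∞ :=
  ∫⁻ s in Icc 0 (eVariationOn γ (Icc 0 1)).toReal, ρ (naturalParameterization γ (Icc 0 1) 0 s)

/-- The conformal `n`-modulus of a family `Γ` of paths `[0, 1] → ℝⁿ`: the infimum of `∫ ρⁿ` over
the Borel functions `ρ : ℝⁿ → [0, ∞]` with `∫_γ ρ ds ≥ 1` for all rectifiable `γ` in `Γ`. -/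
noncomputable def modulus {n : ℕ} (Γ : Set (ℝ → Eucl n)) : ℝ≥0∞ :=
  ⨅ (ρ : Eucl n → ℝ≥0∞) (_ : Measurable ρ)
    (_ : ∀ γ ∈ Γ, IsRectifiable γ → 1 ≤ lineIntegral ρ γ), ∫⁻ x, ρ x ^ n

/-- The family `Γ(F₁, F₂)` of the paths (functions continuous on `[0, 1]`) from `F₁` to `F₂`. -/
def joining {n : ℕ} (F₁ F₂ : Set (Eucl n)) : Set (ℝ → Eucl n) :=
  {γ | ContinuousOn γ (Icc 0 1) ∧ γ 0 ∈ F₁ ∧ γ 1 ∈ F₂}

/-- The family `F_σ(E)` of the paths whose trace meets `E` in at most countably many points. -/
def curvesSigma {n : ℕ} (E : Set (Eucl n)) : Set (ℝ → Eucl n) :=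
  {γ | (γ '' Icc 0 1 ∩ E).Countable}

/-- `E` is CNED: for any two disjoint continua (nonempty compact connected sets) `F₁`, `F₂` the
modulus of `Γ(F₁, F₂)` equals the modulus of `Γ(F₁, F₂) ∩ F_σ(E)`. -/
def IsCNED {n : ℕ} (E : Set (Eucl n)) : Prop :=
  ∀ F₁ F₂ : Set (Eucl n), IsCompact F₁ → IsConnected F₁ → IsCompact F₂ → IsConnected F₂ →
    Disjoint F₁ F₂ → modulus (joining F₁ F₂) = modulus (joining F₁ F₂ ∩ curvesSigma E)

section aux

open Pool.Agent.TH221

variable {n : ℕ}

/-- CNED sets have the property `MinProp` -/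
lemma minProp_of_cned (hn : 2 ≤ n) {E : Set (Eucl n)} (hcned : IsCNED E) : MinProp E := by
  intro x r R hr hR ρ hρ
  have hrank : 1 < Module.rank ℝ (Eucl n) := by
    rw [← Module.finrank_eq_rank, finrank_euclideanSpace_fin]
    exact_mod_cast (by omega : 1 < n)
  have h1 := hcned (sphere x r) (sphere x R) (isCompact_sphere x r)
    (isConnected_sphere hrank x hr.le) (isCompact_sphere x R)
    (isConnected_sphere hrank x (hr.trans hR).le) (by
      rw [Set.disjoint_left]
      intro y hy hy'
      rw [mem_sphere] at hy hy'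
      linarith)
  have e1 : modulus (joining (sphere x r) (sphere x R)) = _ :=
    Pool.Agent.Results.MP_bb0df9_an.CnedIffRemovable.modulus_joining (sphere x r) (sphere x R)
  have e2 : modulus (joining (sphere x r) (sphere x R) ∩ curvesSigma E) = _ :=
    Pool.Agent.Results.MP_bb0df9_an.CnedIffRemovable.modulus_sigma E (sphere x r) (sphere x R)
  rw [e1, e2] at h1
  have h2 : ringE x r R ≤ ⨅ (ρ : Eucl n → ℝ≥0∞) (_ : Adm ∅ (sphere x r) (sphere x R) ρ),
      ∫⁻ x, ρ x ^ n := by
    refine le_iInf₂ fun σ hσ => ?_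
    refine ring_energy hn x hr hR hσ.1 fun e he => ?_
    have hc : Crv univ ∅ (x + r • e) (x + R • e) (fun t => x + (t + r) • e) (R - r) := by
      refine ⟨lip_of_le fun s t hst => ?_, by linarith, by simp, by simp,
        fun _ _ => mem_univ _, by simp⟩
      rw [dist_add_left, dist_eq_norm, ← sub_smul, norm_smul, he, mul_one, Real.norm_eq_abs,
        abs_sub_comm, abs_of_nonneg (by linarith)]
      linarith
    have h3 := hσ.2 (x + r • e) (by simp [norm_smul, he, abs_of_pos hr]) (x + R • e)
      (by simp [norm_smul, he, abs_of_pos (hr.trans hR)]) _ _ hc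
    have h4 := cost_shift (ρ := σ) (fun t => x + t • e) 0 (R - r) r
    rw [zero_add, sub_add_cancel] at h4
    rw [h4] at h3
    exact h3
  calc ringE x r R ≤ _ := h2
    _ = _ := h1
    _ ≤ ∫⁻ y, ρ y ^ n := iInf₂_le ρ hρ

end aux

/-- **Positive answer to Q1.** For every `n ≥ 2`, every closed subset of `ℝⁿ` which is not CNED
contains a compact, totally disconnected set which is not CNED. -/
theorem result : ∀ n : ℕ, 2 ≤ n → ∀ E : Set (Eucl n), IsClosed E → ¬ IsCNED E →
    ∃ K ⊆ E, IsCompact K ∧ IsTotallyDisconnected K ∧ ¬ IsCNED K := by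
  intro n hn E hE hnot
  by_cases h0 : volume E = 0
  · have h1 : ¬ Pool.Agent.Results.MP_bb0df9_an.CnedIffRemovable.IsRemovable E := fun hr =>
      hnot ((Pool.Agent.Results.MP_bb0df9_an.CnedIffRemovable.result n hn E hE).1 hr)
    unfold Pool.Agent.Results.MP_bb0df9_an.CnedIffRemovable.IsRemovable at h1
    push Not at h1
    obtain ⟨u, hu, hW, hnW⟩ := h1
    rw [Pool.Agent.Results.MP_bb0df9_an.CnedIffRemovable.inSobolev_iff] at hW hnW
    obtain ⟨K, hKE, hKc, hKt, u', hu', hW', hnW'⟩ :=
      Pool.Agent.V8H54.CN.case_null (by omega) hE h0 hu hW hnW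
    refine ⟨K, hKE, hKc, hKt, fun hcned => ?_⟩
    have h2 := (Pool.Agent.Results.MP_bb0df9_an.CnedIffRemovable.result n hn K
      hKc.isClosed).2 hcned u' hu'
      (Pool.Agent.Results.MP_bb0df9_an.CnedIffRemovable.inSobolev_iff.2 hW')
    exact hnW' (Pool.Agent.Results.MP_bb0df9_an.CnedIffRemovable.inSobolev_iff.1 h2)
  · obtain ⟨K, hKE, hKc, hKt, hKv⟩ := Pool.Agent.V8H54.CN.exists_td_pos hE h0
    refine ⟨K, hKE, hKc, hKt, fun hcned => hKv ?_⟩
    exact Pool.Agent.TH221.volume_zero_of_minProp hn hKc.isClosed (minProp_of_cned hn hcned)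

end Pool.Agent.Results.MP_d4663a_an.TotDiscNonCned
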